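import Mathlib
import Pool.Agent.N745.T1.Pat2
import Pool.Agent.N745.T1.Pat4

/-!
# abc-triples with two solid members: exponent `ε`
-/

set_option autoImplicit false

namespace Pool.Agent.N745.TP

open Finset Pool.Agent.H785R2.ABC Pool.Agent.H785R2.ABC.EC Pool.Agent.Y913
  Pool.Agent.Y913.Nb Pool.Agent.N745.T1

/-- the hypotheses on the triples counted -/
structure Two (n E : ℕ) (L δ : ℝ) (X : ℝ) (p q r : Fin 3) (t : ℕ × ℕ × ℕ) : Prop where
  abc : IsABCTriple t.1 t.2.1 t.2.2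
  np : NB n (X ^ E) (num t p)
  nq : NB n (X ^ E) (num t q)
  nr : (rad (num t r) : ℝ) ≤ X
  lo : X ^ L ≤ (t.2.2 : ℝ)
  hi : (t.2.2 : ℝ) ≤ Real.exp (X ^ δ)

theorem log_le_of_exp {c : ℕ} {x : ℝ} (hc : 1 ≤ c) (h : (c : ℝ) ≤ Real.exp x) :
    (Nat.log 2 c : ℝ) ≤ 2 * x := by
  have h1 : ((2 ^ Nat.log 2 c : ℕ) : ℝ) ≤ c := by exact_mod_cast Nat.pow_log_le_self 2 (by omega)
  have h2 : (2 : ℝ) ^ Nat.log 2 c ≤ Real.exp x := by
    push_cast at h1
    exact h1.trans h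
  have h3 := Real.log_le_log (by positivity) h2
  rw [Real.log_pow, Real.log_exp] at h3
  have h4 : (1 : ℝ) / 2 < Real.log 2 := by
    have := Real.log_two_gt_d9
    linarith
  have h5 : (0 : ℝ) ≤ (Nat.log 2 c : ℝ) := Nat.cast_nonneg _
  nlinarith

/-- **two solid members** -/
theorem core (n E : ℕ) (ε : ℝ) (hε : 0 < ε) : ∃ L δ C : ℝ, 0 < L ∧ 0 < δ ∧ 0 < C ∧
    ∀ (X : ℝ) (p q r : Fin 3), 1 ≤ X → p ≠ q → q ≠ r → p ≠ r → ∀ T : Finset (ℕ × ℕ × ℕ),
      (∀ t ∈ T, Two n E L δ X p q r t) → (T.card : ℝ) ≤ C * X ^ ε := by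
  classical
  -- the parameters
  obtain ⟨κ, hκ⟩ : ∃ κ : ℝ, κ = 1 + 2 * ((2 * n : ℕ) : ℝ) ^ 2 := ⟨_, rfl⟩
  have hκ1 : 1 ≤ κ := by
    rw [hκ]
    have : (0 : ℝ) ≤ 2 * ((2 * n : ℕ) : ℝ) ^ 2 := by positivity
    linarith
  have hκ0 : 0 < κ := by linarith
  obtain ⟨γ, hγdef⟩ : ∃ γ : ℝ, γ = min 1 (ε / (2 * κ)) := ⟨_, rfl⟩
  have hγ : 0 < γ := by rw [hγdef]; exact lt_min one_pos (by positivity)
  have hγ1 : γ ≤ 1 := by rw [hγdef]; exact min_le_left _ _
  have hγκ : γ * κ ≤ ε / 2 := by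
    have h1 : γ ≤ ε / (2 * κ) := by rw [hγdef]; exact min_le_right _ _
    rw [le_div_iff₀ (by positivity)] at h1
    linarith
  obtain ⟨w, hw⟩ := exists_nat_ge (2 * (E : ℝ) / γ)
  have hw' : 2 * (E : ℝ) ≤ γ * w := by
    rw [div_le_iff₀ hγ] at hw
    linarith
  obtain ⟨M', hM'⟩ : ∃ M', M' = 2 * KK (2 * n) (2 * n * w) + 1 := ⟨_, rfl⟩
  have hM'1 : 1 ≤ M' := by omega
  obtain ⟨C0, hC0⟩ := count_two n w
  obtain ⟨δ, hδdef⟩ : ∃ δ : ℝ, δ = min (γ / 2) (ε / (4 * (n + 1))) := ⟨_, rfl⟩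
  have hδ : 0 < δ := by rw [hδdef]; exact lt_min (by positivity) (by positivity)
  have hδγ : δ ≤ γ / 2 := by rw [hδdef]; exact min_le_left _ _
  have hδn : δ * ((2 * n : ℕ) : ℝ) ≤ ε / 2 := by
    have h1 : δ ≤ ε / (4 * (n + 1)) := by rw [hδdef]; exact min_le_right _ _
    rw [le_div_iff₀ (by positivity)] at h1
    push_cast
    nlinarith [hδ]
  obtain ⟨n2, hn2⟩ := exists_nat_ge (2 / γ)
  obtain ⟨L, D, hL, hD, hsss⟩ := pat_sss (n + (n2 + 1)) (E + M') (by omega) ε hε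
  -- the threshold
  obtain ⟨x0, hx0⟩ := Filter.eventually_atTop.mp
    ((tendsto_rpow_atTop (half_pos hγ)).eventually_ge_atTop ((4 * (C0 * n) : ℕ) : ℝ))
  obtain ⟨X0, hX0⟩ : ∃ X0 : ℝ, X0 = max x0 1 := ⟨_, rfl⟩
  have hX01 : 1 ≤ X0 := by rw [hX0]; exact le_max_right _ _
  obtain ⟨H, hH⟩ := exists_nat_ge (Real.exp (X0 ^ δ))
  obtain ⟨CB, hCB⟩ : ∃ CB : ℝ, CB = (5 : ℝ) ^ (2 * n) * (C0 : ℝ) ^ (2 * n) := ⟨_, rfl⟩
  have hCB0 : 0 ≤ CB := by rw [hCB]; positivity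
  refine ⟨L, δ, ((H + 1) ^ 3 : ℕ) + (CB + D), hL, hδ, by positivity, ?_⟩
  intro X p q r hX hpq hqr hpr T hT
  have hX0' : (0 : ℝ) < X := by linarith
  have hXε : (1 : ℝ) ≤ X ^ ε := Real.one_le_rpow hX hε.le
  rcases lt_or_ge X X0 with hXs | hXl
  · -- small `X`
    have h1 : T ⊆ range (H + 1) ×ˢ (range (H + 1) ×ˢ range (H + 1)) := by
      intro t ht
      have h2 := (hT t ht).hi
      have h3 : (t.2.2 : ℝ) ≤ H := by
        refine h2.trans (le_trans ?_ hH)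
        exact Real.exp_le_exp.2 (Real.rpow_le_rpow hX0'.le hXs.le hδ.le)
      have h4 : t.2.2 ≤ H := by exact_mod_cast h3
      obtain ⟨h5, h6, h7, h8, -⟩ := (hT t ht).abc
      rw [mem_product, mem_product, mem_range, mem_range, mem_range]
      omega
    have h2 := card_le_card h1
    rw [card_product, card_product, card_range] at h2
    have h3 : (T.card : ℝ) ≤ ((H + 1) ^ 3 : ℕ) := by
      have h4 : T.card ≤ (H + 1) ^ 3 := h2.trans (le_of_eq (by ring))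
      exact_mod_cast h4
    calc (T.card : ℝ) ≤ ((H + 1) ^ 3 : ℕ) * 1 := by rw [mul_one]; exact h3
      _ ≤ (((H + 1) ^ 3 : ℕ) + (CB + D)) * X ^ ε := by
          apply mul_le_mul _ hXε zero_le_one (by positivity)
          have : 0 ≤ CB + D := by linarith
          linarith
  -- large `X`
  have hXγ : ((4 * (C0 * n) : ℕ) : ℝ) ≤ X ^ (γ / 2) := by
    apply hx0
    exact (le_max_left _ _).trans (hX0 ▸ hXl)
  have hδ1 : (1 : ℝ) ≤ X ^ δ := Real.one_le_rpow hX hδ.le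
  set T1 := T.filter fun t => Dusty X γ M' (num t r) with hT1
  set T2 := T.filter fun t => ¬ Dusty X γ M' (num t r) with hT2
  have hT1m : ∀ t ∈ T1, t ∈ T ∧ Dusty X γ M' (num t r) := fun t ht => mem_filter.1 ht
  have hT2m : ∀ t ∈ T2, t ∈ T ∧ ¬ Dusty X γ M' (num t r) := fun t ht => mem_filter.1 ht
  -- the third member is dusty
  obtain ⟨El, hEl⟩ : ∃ El : ℕ, El = ⌊2 * X ^ δ⌋₊ := ⟨_, rfl⟩
  have hElle : (El : ℝ) ≤ 2 * X ^ δ := by rw [hEl]; exact Nat.floor_le (by positivity)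
  have hlog : ∀ t ∈ T, ∀ j, Nat.log 2 (num t j) ≤ El := by
    intro t ht j
    have h1 := (hT t ht).abc
    rw [hEl]
    apply Nat.le_floor
    have h2 : Nat.log 2 (num t j) ≤ Nat.log 2 t.2.2 := Nat.log_mono_right (num_le h1 j)
    calc (Nat.log 2 (num t j) : ℝ) ≤ (Nat.log 2 t.2.2 : ℝ) := by exact_mod_cast h2
      _ ≤ 2 * X ^ δ := log_le_of_exp h1.2.2.1 (hT t ht).hi
  have hb1 : (T1.card : ℝ) ≤ CB * X ^ ε := by
    set B2 : ℝ := (5 * X ^ δ) ^ (2 * n) * (C0 : ℝ) ^ (2 * n) *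
      X ^ (2 * γ * ((2 * n : ℕ) : ℝ) ^ 2) with hB2
    have hB20 : 0 ≤ B2 := by rw [hB2]; positivity
    have hfib := dust_fiber (B := B2) hX hγ.le (fun t ht => (hT1m t ht).2) hB20 (by
      intro ρ hρ1 hρ2
      obtain ⟨g1, g2, g3⟩ := rho_bounds (M := E) (w := w) hX hγ hw' hρ1
      set Tρ := T1.filter fun t => ρ ^ M' ∣ num t r with hTρ
      have hTm : ∀ t ∈ Tρ, t ∈ T ∧ ρ ^ M' ∣ num t r := fun t ht => by
        rw [hTρ, mem_filter] at ht
        exact ⟨(hT1m t ht.1).1, ht.2⟩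
      have hcard : (Tρ.image fun t => (num t p, num t q)).card = Tρ.card := by
        apply card_image_of_injOn
        intro t ht t' ht' htt
        simp only [Prod.mk.injEq] at htt
        exact num_inj (hT t (hTm t ht).1).abc (hT t' (hTm t' ht').1).abc hpq htt.1 htt.2
      obtain ⟨κ', hκ'⟩ := exists_sg_unit r (ρ ^ M')
      have hnb2 : ∀ m : ℕ, NB n (X ^ E) m → NB n (X ^ (2 * E)) m := fun m hm =>
        hm.mono_Y (pow_le_pow_right₀ hX (by omega))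
      have h5 := hC0 ρ M' El (X ^ (2 * E)) (Tρ.image fun t => (num t p, num t q)) κ' g1
        (one_le_pow₀ hX) g2 (by
          have h6 : ((C0 * (2 * n * El) : ℕ) : ℝ) ≤ ((ρ ^ 2 : ℕ) : ℝ) := by
            calc ((C0 * (2 * n * El) : ℕ) : ℝ) = ((2 * (C0 * n) : ℕ) : ℝ) * El := by
                  push_cast; ring
              _ ≤ ((2 * (C0 * n) : ℕ) : ℝ) * (2 * X ^ δ) := by gcongr
              _ = ((4 * (C0 * n) : ℕ) : ℝ) * X ^ δ := by push_cast; ring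
              _ ≤ X ^ (γ / 2) * X ^ (γ / 2) := by
                  apply mul_le_mul hXγ _ (by positivity) (by positivity)
                  exact Real.rpow_le_rpow_of_exponent_le hX hδγ
              _ = X ^ γ := by
                  rw [← Real.rpow_add hX0']
                  congr 1
                  ring
              _ ≤ _ := g3
          exact_mod_cast h6) (by omega) (by
          intro x hx
          obtain ⟨t, ht, rfl⟩ := mem_image.1 hx
          obtain ⟨b1, b2⟩ := hTm t ht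
          have ht' := hT t b1
          have hρr : ρ ∣ num t r := (dvd_pow_self ρ (by omega)).trans b2
          refine ⟨⟨num_pos ht'.abc p, hnb2 _ ht'.np,
            Nat.Coprime.coprime_dvd_right hρr (num_coprime ht'.abc hpr), hlog t b1 p⟩,
            ⟨num_pos ht'.abc q, hnb2 _ ht'.nq,
            Nat.Coprime.coprime_dvd_right hρr (num_coprime ht'.abc hqr), hlog t b1 q⟩,
            num_coprime ht'.abc hpq, ?_⟩
          rw [hκ']
          exact num_zmod ht'.abc hpq hqr hpr b2)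
      rw [hcard] at h5
      have h6 := rho_pow_le hX hρ2 C0 El (2 * n)
      have h7 : ((2 * El + 1 : ℕ) : ℝ) ≤ 5 * X ^ δ := by
        push_cast
        linarith
      calc (Tρ.card : ℝ) ≤ (((2 * El + 1) ^ (2 * n) * (C0 * (ρ ^ 2) ^ (2 * n)) ^ (2 * n) : ℕ) : ℝ) := by
            exact_mod_cast h5
        _ ≤ (((2 * El + 1) ^ (2 * n) : ℕ) : ℝ) * (C0 : ℝ) ^ (2 * n) *
            X ^ (2 * γ * ((2 * n : ℕ) : ℝ) ^ 2) := h6
        _ ≤ (5 * X ^ δ) ^ (2 * n) * (C0 : ℝ) ^ (2 * n) *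
            X ^ (2 * γ * ((2 * n : ℕ) : ℝ) ^ 2) := by
            rw [Nat.cast_pow]
            gcongr
        _ = B2 := by rw [hB2])
    refine hfib.trans ?_
    have e1 : (5 * X ^ δ) ^ (2 * n) = (5 : ℝ) ^ (2 * n) * X ^ (δ * ((2 * n : ℕ) : ℝ)) := by
      rw [mul_pow, Real.rpow_mul hX0'.le, Real.rpow_natCast]
    have e2 : X ^ γ * (X ^ (δ * ((2 * n : ℕ) : ℝ)) * X ^ (2 * γ * ((2 * n : ℕ) : ℝ) ^ 2)) ≤
        X ^ ε := by
      rw [← Real.rpow_add hX0', ← Real.rpow_add hX0']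
      apply Real.rpow_le_rpow_of_exponent_le hX
      have : γ + 2 * γ * ((2 * n : ℕ) : ℝ) ^ 2 = γ * κ := by rw [hκ]; ring
      linarith
    calc X ^ γ * B2 = CB * (X ^ γ * (X ^ (δ * ((2 * n : ℕ) : ℝ)) *
          X ^ (2 * γ * ((2 * n : ℕ) : ℝ) ^ 2))) := by
          rw [hB2, e1, hCB]; ring
      _ ≤ CB * X ^ ε := mul_le_mul_of_nonneg_left e2 hCB0
  -- the third member is solid
  have hb2 : (T2.card : ℝ) ≤ D * X ^ ε := by
    have hYE : X ^ E ≤ X ^ (2 * (E + M')) := pow_le_pow_right₀ hX (by omega)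
    have hYM : X ^ (2 * M') ≤ X ^ (2 * (E + M')) := pow_le_pow_right₀ hX (by omega)
    have hY1 : (1 : ℝ) ≤ X ^ (2 * (E + M')) := one_le_pow₀ hX
    apply hsss T2 X hX
    · intro t ht
      exact (hT t (hT2m t ht).1).abc
    · intro t ht j
      obtain ⟨b1, b2⟩ := hT2m t ht
      have ht' := hT t b1
      have h3 : NB (n2 + 1) (X ^ (2 * M')) (num t r) :=
        nb_of_not_dusty hX hγ hγ1 hM'1 hn2 (num_pos ht'.abc r) ht'.nr b2
      have hj : j = p ∨ j = q ∨ j = r := by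
        revert hpq hqr hpr
        fin_cases j <;> fin_cases p <;> fin_cases q <;> fin_cases r <;> simp
      rcases hj with rfl | rfl | rfl
      · exact (ht'.np.mono_Y hYE).mono_n hY1 (by omega)
      · exact (ht'.nq.mono_Y hYE).mono_n hY1 (by omega)
      · exact (h3.mono_Y hYM).mono_n hY1 (by omega)
    · intro t ht
      exact (hT t (hT2m t ht).1).lo
  have hsum : T.card = T1.card + T2.card := by
    rw [hT1, hT2]
    exact (card_filter_add_card_filter_not _).symm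
  calc (T.card : ℝ) = T1.card + T2.card := by rw [hsum]; push_cast; ring
    _ ≤ CB * X ^ ε + D * X ^ ε := add_le_add hb1 hb2
    _ = (CB + D) * X ^ ε := by ring
    _ ≤ (((H + 1) ^ 3 : ℕ) + (CB + D)) * X ^ ε := by
        apply mul_le_mul_of_nonneg_right _ (by positivity)
        have : (0 : ℝ) ≤ ((H + 1) ^ 3 : ℕ) := Nat.cast_nonneg _
        linarith

end Pool.Agent.N745.TP
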